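import Mathlib
import Pool.Agent.Y242.CS.Stm

/-! Project CS, part 3: the function with derivative `exp (ψ(z⁻²)/2)`. -/

set_option autoImplicit false

open Set Filter Topology Complex Metric

namespace Pool.Agent.Y317.CS

open Y242.CS

theorem psi_diff (s : ℝ) : Differentiable ℂ (psi s) := by
  unfold psi
  fun_prop

theorem psi_norm (s : ℝ) (hs : |s| ≤ 1) (u : ℂ) (hu : ‖u‖ ≤ 1) : ‖psi s u‖ ≤ 61 / 50 := by
  have h2 : ‖u ^ 2‖ ≤ 1 := by
    rw [norm_pow]; exact pow_le_one₀ (norm_nonneg _) hu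
  have h3 : ‖u ^ 3‖ ≤ 1 := by
    rw [norm_pow]; exact pow_le_one₀ (norm_nonneg _) hu
  have ha : ‖(4 / 5 * u : ℂ)‖ ≤ 4 / 5 := by
    rw [norm_mul]
    have : ‖(4 / 5 : ℂ)‖ = 4 / 5 := by norm_num
    rw [this]; nlinarith [norm_nonneg u]
  have hb : ‖(19 / 20 * u ^ 2 : ℂ)‖ ≤ 19 / 20 := by
    rw [norm_mul]
    have : ‖(19 / 20 : ℂ)‖ = 19 / 20 := by norm_num
    rw [this]; nlinarith [norm_nonneg (u ^ 2)]
  have hc : ‖(u ^ 3 / 3 : ℂ)‖ ≤ 1 / 3 := by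
    rw [norm_div]
    have : ‖(3 : ℂ)‖ = 3 := by norm_num
    rw [this]; linarith
  have hd : ‖(4 / 5 * u - 19 / 20 * u ^ 2 + u ^ 3 / 3 : ℂ)‖ ≤ 4 / 5 + 19 / 20 + 1 / 3 :=
    (norm_add_le _ _).trans (add_le_add ((norm_sub_le _ _).trans (add_le_add ha hb)) hc)
  have he : ‖(s : ℂ) * (I / 10)‖ ≤ 1 / 10 := by
    rw [norm_mul, norm_div, norm_I, Complex.norm_real, Real.norm_eq_abs]
    have : ‖(10 : ℂ)‖ = 10 := by norm_num
    rw [this]; nlinarith [abs_nonneg s]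
  unfold psi
  refine (norm_sub_le _ _).trans ?_
  rw [norm_mul]
  have h4 : ‖(s : ℂ) * (I / 10)‖ * ‖(4 / 5 * u - 19 / 20 * u ^ 2 + u ^ 3 / 3 : ℂ)‖ ≤
      1 / 10 * (4 / 5 + 19 / 20 + 1 / 3) :=
    mul_le_mul he hd (norm_nonneg _) (by norm_num)
  linarith

theorem exp_sub_one (x : ℂ) : ‖exp x - 1‖ ≤ Real.exp ‖x‖ - 1 := by
  have h := Complex.norm_exp_sub_sum_le_exp_norm_sub_sum x 1
  simpa using h

theorem t : S_3 := by
  refine ⟨Real.exp (61 / 100) - 1, ?_, ?_⟩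
  · have h1 : Real.exp (61 / 100) < Real.exp (Real.log 2) :=
      Real.exp_lt_exp.2 (by linarith [Real.log_two_gt_d9])
    rw [Real.exp_log (by norm_num)] at h1
    linarith
  intro s hs
  set κ : ℝ := Real.exp (61 / 100) - 1 with hκ
  obtain ⟨g, hg⟩ : ∃ g : ℂ → ℂ, g = fun u => exp (psi s u / 2) := ⟨_, rfl⟩
  have hgd : Differentiable ℂ g := by
    rw [hg]
    exact ((psi_diff s).div_const 2).cexp
  have hg0 : g 0 = 1 := by
    rw [hg]
    simp [psi]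
  obtain ⟨D, hD⟩ : ∃ D : ℂ → ℂ, D = dslope g 0 := ⟨_, rfl⟩
  have hDd : Differentiable ℂ D := by
    rw [hD, ← differentiableOn_univ]
    exact (Complex.differentiableOn_dslope univ_mem).2 hgd.differentiableOn
  have hDu : ∀ u : ℂ, u * D u = g u - 1 := by
    intro u
    have h := sub_smul_dslope g 0 u
    rw [sub_zero, smul_eq_mul, hg0] at h
    rw [hD]; exact h
  obtain ⟨E, hE⟩ : ∃ E : ℂ → ℂ, E = fun w => D (w ^ 2) := ⟨_, rfl⟩
  have hEd : Differentiable ℂ E := by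
    rw [hE]
    exact hDd.comp (differentiable_id.pow 2)
  have hEb : ∀ w : ℂ, ‖w‖ ≤ 1 → ‖E w‖ ≤ κ := by
    intro w hw
    refine Complex.norm_le_of_forall_mem_frontier_norm_le (isBounded_ball (x := (0 : ℂ)) (r := 1))
      hEd.diffContOnCl ?_ ?_
    · intro z hz
      rw [frontier_ball (0 : ℂ) one_ne_zero, mem_sphere_zero_iff_norm] at hz
      have h1 : ‖z ^ 2‖ = 1 := by rw [norm_pow, hz, one_pow]
      have h2 : ‖E z‖ = ‖g (z ^ 2) - 1‖ := by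
        rw [← hDu, norm_mul, h1, one_mul, hE]
      rw [h2, hg]
      refine (exp_sub_one _).trans ?_
      rw [hκ]
      have h3 := psi_norm s hs (z ^ 2) h1.le
      have h4 : ‖psi s (z ^ 2) / 2‖ ≤ 61 / 100 := by
        rw [norm_div]
        have : ‖(2 : ℂ)‖ = 2 := by norm_num
        rw [this]; linarith
      linarith [Real.exp_le_exp.2 h4]
    · rw [closure_ball (0 : ℂ) one_ne_zero, mem_closedBall_zero_iff]
      exact hw
  obtain ⟨P, hP0, hP⟩ := (hEd.neg.isExactOn_univ).with_val_at 0 0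
  have hP' : ∀ x, HasDerivAt P (-E x) x := fun x => hP x (mem_univ x)
  have hlip : ∀ w₁ w₂ : ℂ, ‖w₁‖ ≤ 1 → ‖w₂‖ ≤ 1 → ‖P w₂ - P w₁‖ ≤ κ * ‖w₂ - w₁‖ := by
    intro w₁ w₂ h1 h2
    refine (convex_closedBall (0 : ℂ) 1).norm_image_sub_le_of_norm_hasDerivWithin_le
      (f' := fun x => -E x) (fun x _ => (hP' x).hasDerivWithinAt) ?_ ?_ ?_
    · intro x hx
      rw [norm_neg]
      exact hEb x (mem_closedBall_zero_iff.1 hx)
    · exact mem_closedBall_zero_iff.2 h1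
    · exact mem_closedBall_zero_iff.2 h2
  have hκ0 : 0 ≤ κ := (norm_nonneg _).trans (hEb 0 (by simp))
  refine ⟨fun z => z + P z⁻¹, ?_, ?_, ?_⟩
  · intro z hz
    have h1 : HasDerivAt (fun z => P z⁻¹) (-E z⁻¹ * (-(z ^ 2)⁻¹)) z :=
      (hP' z⁻¹).comp z (hasDerivAt_inv hz)
    have h2 := (hasDerivAt_id z).add h1
    have h3 : exp (psi s (z⁻¹ ^ 2) / 2) = 1 + -E z⁻¹ * (-(z ^ 2)⁻¹) := by
      have h4 := hDu (z⁻¹ ^ 2)
      have h5 : E z⁻¹ = D (z⁻¹ ^ 2) := by rw [hE]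
      have h6 : g (z⁻¹ ^ 2) = exp (psi s (z⁻¹ ^ 2) / 2) := by rw [hg]
      rw [h5, ← h6]
      rw [inv_pow] at h4 ⊢
      linear_combination -h4
    rw [h3]
    exact h2
  · have h1 : Tendsto (fun z : ℂ => P z⁻¹) (Bornology.cobounded ℂ) (𝓝 (P 0)) :=
      ((hP' 0).continuousAt.tendsto).comp tendsto_inv₀_cobounded
    rw [hP0] at h1
    refine h1.congr fun z => ?_
    ring
  · intro z hz w hw
    have hz1 : 1 ≤ ‖z‖ := hz
    have hw1 : 1 ≤ ‖w‖ := hw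
    have hz0 : z ≠ 0 := by
      intro h; rw [h, norm_zero] at hz1; linarith
    have hw0 : w ≠ 0 := by
      intro h; rw [h, norm_zero] at hw1; linarith
    have h1 := hlip w⁻¹ z⁻¹ (by rw [norm_inv]; exact inv_le_one_of_one_le₀ hw1)
      (by rw [norm_inv]; exact inv_le_one_of_one_le₀ hz1)
    have h2 : z + P z⁻¹ - z - (w + P w⁻¹ - w) = P z⁻¹ - P w⁻¹ := by ring
    rw [h2]
    refine h1.trans (mul_le_mul_of_nonneg_left ?_ hκ0)
    have h3 : z⁻¹ - w⁻¹ = (w - z) * (z * w)⁻¹ := by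
      field_simp
    rw [h3, norm_mul, norm_inv, norm_mul, norm_sub_rev w z]
    have h4 : (‖z‖ * ‖w‖)⁻¹ ≤ 1 := inv_le_one_of_one_le₀ (by nlinarith)
    exact mul_le_of_le_one_right (norm_nonneg _) h4

end Pool.Agent.Y317.CS
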